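import Mathlib
import Pool.Agent.N687.P.P5
import Pool.Agent.H383.Full3

/-!
# The circle problem at dilated primes, with a power saving

Let `N(x) = #{p ∈ ℤ² : |p|² ≤ x}`, so that `E(x) = N(x) - πx` is the error term of the Gauss circle problem
for the radius `√x`, and let `V = (1/(2π²)) ∑ r(m)² m^{-3/2}` (the constant of Cramér's mean square
formula).  For each real `κ > 0` there are `δ > 0` and `C` such that for all real `α`, all moduli `q ≥ 1`, all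
residues `b` and all `X ≥ 1` the sums
`∑_{p ≤ X, p ≡ b (q)} e(α p) E(κ p)` and `∑_{n ≤ X, n ≡ b (q)} μ(n) e(α n) E(κ n)` are at most `C X^{5/4 - δ}`
(the trivial bound, from the mean square, being `X^{5/4}`), and
`∑_{p ≤ X, p ≡ b (q)} e(α p) (E(κ p)² - V √(κ p))` and `∑_{n ≤ X, n ≡ b (q)} μ(n) e(α n) (E(κ n)² - V √(κ n))` are at
most `C X^{3/2 - δ}`.  In particular, with `α = 0` and `κ = 1`, the mean value of `E(p)` over the primes has a
power saving and the mean square over the primes is `V ∑ √p + O(X^{3/2 - δ})`.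
-/

set_option autoImplicit false

open Finset

namespace Pool.Agent.Results.MP_fb29e9_nt.DilatedPrimes

open Pool.Agent.N687.P
open Pool.Agent.H383.Gauss (En F)
open Pool.Agent.H383.Circ (ag ag_zero wg wg_Wt rA_card)
open Pool.Agent.H452R2.Win (ag_Bdw En_SandW)

/-- **The circle problem at dilated primes.** -/
theorem result (E : ℝ → ℝ)
    (hE : ∀ x : ℝ, E x = (Nat.card {p : ℤ × ℤ // (p.1 : ℝ) ^ 2 + (p.2 : ℝ) ^ 2 ≤ x} : ℝ) -
      Real.pi * x) :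
    ∃ V : ℝ, HasSum (fun m : ℕ => (Nat.card {p : ℤ × ℤ // p.1 ^ 2 + p.2 ^ 2 = (m : ℤ)} : ℝ) ^ 2 /
        (2 * Real.pi ^ 2) * (m : ℝ) ^ (-(3 / 2) : ℝ)) V ∧
    ∀ κ : ℝ, 0 < κ → ∃ δ : ℝ, 0 < δ ∧ ∃ C : ℝ, ∀ (α : ℝ) (q b X : ℕ), 1 ≤ q → 1 ≤ X →
      ‖∑ p ∈ (Icc 1 X).filter (fun p : ℕ => p.Prime ∧ p ≡ b [MOD q]),
        Complex.exp (2 * Real.pi * Complex.I * (α * p)) * ((E (κ * p) : ℝ) : ℂ)‖
          ≤ C * (X : ℝ) ^ (5 / 4 - δ) ∧
      ‖∑ n ∈ (Icc 1 X).filter (fun n : ℕ => n ≡ b [MOD q]),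
        ((ArithmeticFunction.moebius n : ℤ) : ℂ) *
        Complex.exp (2 * Real.pi * Complex.I * (α * n)) * ((E (κ * n) : ℝ) : ℂ)‖
          ≤ C * (X : ℝ) ^ (5 / 4 - δ) ∧
      ‖∑ p ∈ (Icc 1 X).filter (fun p : ℕ => p.Prime ∧ p ≡ b [MOD q]),
        Complex.exp (2 * Real.pi * Complex.I * (α * p)) *
          ((E (κ * p) ^ 2 - V * √(κ * p) : ℝ) : ℂ)‖ ≤ C * (X : ℝ) ^ (3 / 2 - δ) ∧
      ‖∑ n ∈ (Icc 1 X).filter (fun n : ℕ => n ≡ b [MOD q]),
        ((ArithmeticFunction.moebius n : ℤ) : ℂ) *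
        Complex.exp (2 * Real.pi * Complex.I * (α * n)) *
          ((E (κ * n) ^ 2 - V * √(κ * n) : ℝ) : ℂ)‖ ≤ C * (X : ℝ) ^ (3 / 2 - δ) := by
  refine ⟨VV ag, ?_, ?_⟩
  · have h1 : HasSum (fun m => ag m ^ 2 / 2) (VV ag) := (sq_summable ag_Bdw).hasSum
    convert h1 using 1
    funext m
    rcases Nat.eq_zero_or_pos m with rfl | hm
    · have e0 : ((0 : ℕ) : ℝ) ^ (-(3 / 2) : ℝ) = 0 := by
        rw [Nat.cast_zero]
        exact Real.zero_rpow (by norm_num)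
      rw [e0, ag_zero]
      ring
    · have hm0 : (0 : ℝ) < m := by exact_mod_cast hm
      unfold ag
      rw [rA_card, mul_pow, ← Real.rpow_natCast (√(m : ℝ) ^ (-(3 / 2) : ℝ)),
        ← Real.rpow_mul (Real.sqrt_nonneg _), Real.sqrt_eq_rpow, ← Real.rpow_mul hm0.le]
      norm_num
      have := Real.pi_ne_zero
      field_simp
  · intro κ hκ
    have hc : 0 < √κ := Real.sqrt_pos.2 hκ
    obtain ⟨δ, hδ, C, h⟩ := four (a := ag) ag_Bdw ag_zero wg_Wt En_SandW hc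
      (s := κ ^ (1 / 4 : ℝ)) (fun n => E (κ * n)) (by
      intro n hn
      have hn0 : (0 : ℝ) < n := by exact_mod_cast hn
      have hx : 0 < κ * n := by positivity
      have e1 : √κ * √(n : ℝ) = √(κ * n) := (Real.sqrt_mul hκ.le _).symm
      have e2 : En (√(κ * n)) = Pool.Agent.H425R3.JL.Ec (κ * n) := Pool.Agent.H425R3.JL.Ec_eq hx.le
      rw [e1, e2, ← mul_assoc, ← Real.mul_rpow hκ.le hn0.le]
      unfold Pool.Agent.H425R3.JL.Ec
      rw [mul_div_cancel₀ _ (Real.rpow_pos_of_pos hx _).ne', hE])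
    refine ⟨δ, hδ, C, fun α q b X hq hX => ?_⟩
    have hs : ∀ n : ℕ, (κ ^ (1 / 4 : ℝ)) ^ 2 * √(n : ℝ) = √(κ * n) := by
      intro n
      rw [Real.sqrt_mul hκ.le, ← Real.rpow_natCast, ← Real.rpow_mul hκ.le, Real.sqrt_eq_rpow κ]
      norm_num
    have h1 := h α q b X hq hX
    simp only [hs] at h1
    exact h1

end Pool.Agent.Results.MP_fb29e9_nt.DilatedPrimes
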