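import Pool.Agent.Y969.QM4
import Pool.Agent.R482.ST.Star

/-!
# The conjectured bound of the circle problem on whole windows around powers and orbits

Let `φ_n`, `n = 0, 1, 2, …`, be positive functions on `(a, ∞)`, `a ≥ 0`, such that `φ_n(t) / t` is nondecreasing, and
such that the sequence `φ_n(t)` has exponent of convergence at most `τ` for each `t > a`: for instance
`φ_n(t) = t ^ (v_n)` for exponents `v_n ≥ 1` (`τ = 0`; all powers, the powers `t ^ (2 n)`, which correspond to the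
radii `t ^ n`, …), the orbits `φ_n(t) = g (g (⋯ g (t)))` of any map `g` with `g(t) > t` and `g(t) / t` nondecreasing
(`τ = 0`; for instance of `t² + c`), and `φ_n(t) = v_n t`.
Let `N(x) = #{p ∈ ℤ² : |p|² ≤ x}`, so that `N(x) - πx` is the error term of the circle problem for the radius `√x`.

(1) There is an absolute `c > 0` such that for `0 < ε ≤ c`, for all `α > a` outside a set of Hausdorff dimension at
most `(1 - c ε log (1/ε) + τ) / (1 - θ)` and all but finitely many `n`, one has `|N(x) - πx| ≤ x ^ (1/4 + ε)` for ALL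
real `x` with `|x - φ_n(α)| ≤ C φ_n(α) ^ θ`.

(2) If `τ = 0`, then for almost every `α > a` and every `ε > 0` there is `θ > 0` such that this holds for all real `x`
with `|x - φ_n(α)| ≤ φ_n(α) ^ θ`, for all but finitely many `n`.
-/

set_option autoImplicit false

open Filter Topology MeasureTheory

namespace Pool.Agent.Results.MP_fb29e9_nt.StarshapedWindows

/-- the functions `φ n` are positive on `(a, ∞)`, `a ≥ 0`, and `φ n x / x` is nondecreasing there -/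
def Starshaped (a : ℝ) (φ : ℕ → ℝ → ℝ) : Prop :=
  0 ≤ a ∧ ∀ n : ℕ, ∀ x y : ℝ, a < x → x ≤ y → 0 < φ n x ∧ φ n x / x ≤ φ n y / y

/-- for each `x > a` the exponent of convergence of the sequence `φ n x` is at most `τ` -/
def ExpLe (a : ℝ) (φ : ℕ → ℝ → ℝ) (τ : ℝ) : Prop :=
  ∀ x : ℝ, a < x → ∀ t : ℝ, τ < t → Summable (fun n : ℕ => (φ n x) ^ (-t))

/-- all the real `y` in the windows of radius `C (φ n α) ^ θ` around `φ n α`, for all but finitely many `n`, are `≥ 1`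
and satisfy `|#{p ∈ ℤ² : |p|² ≤ y} - πy| ≤ y ^ (1/4 + ε)` -/
def BoundHolds (φ : ℕ → ℝ → ℝ) (ε θ C α : ℝ) : Prop :=
  ∃ n₀ : ℕ, ∀ n : ℕ, n₀ ≤ n → ∀ y : ℝ, |y - φ n α| ≤ C * (φ n α) ^ θ →
    1 ≤ y ∧ |(Nat.card {p : ℤ × ℤ // (p.1 : ℝ) ^ 2 + (p.2 : ℝ) ^ 2 ≤ y} : ℝ) - Real.pi * y| ≤ y ^ (1 / 4 + ε)

/-- the values of a sequence with a finite exponent of convergence are eventually at least one -/
lemma ev_ge_one {a τ x : ℝ} {φ : ℕ → ℝ → ℝ} (hf : Starshaped a φ) (hτ : 0 ≤ τ) (hE : ExpLe a φ τ) (hx : a < x) :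
    ∃ n₀ : ℕ, ∀ n : ℕ, n₀ ≤ n → 1 ≤ φ n x := by
  have h := (hE x hx (τ + 1) (by linarith)).tendsto_atTop_zero
  have h1 := h.eventually (eventually_lt_nhds (show (0 : ℝ) < 1 by norm_num))
  obtain ⟨n₀, hn⟩ := eventually_atTop.1 h1
  refine ⟨n₀, fun n hn1 => ?_⟩
  have h2 := hn n hn1
  have hpos := (hf.2 n x x hx le_rfl).1
  by_contra hcon
  push Not at hcon
  have h3 : 1 ≤ (φ n x) ^ (-(τ + 1)) :=
    Real.one_le_rpow_of_pos_of_le_one_of_nonpos hpos hcon.le (by linarith)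
  linarith

/-- from the integers of the windows to the real numbers of the windows -/
lemma real_of_nat {φ : ℕ → ℝ → ℝ} {a τ ε θ α C : ℝ} (hf : Starshaped a φ) (hτ : 0 ≤ τ) (hE : ExpLe a φ τ)
    (hθ0 : 0 ≤ θ) (hα : a < α)
    (h : ∃ n₀ : ℕ, ∀ n : ℕ, n₀ ≤ n → ∀ m : ℕ, |(m : ℝ) - φ n α| ≤ (C + 1) * (φ n α) ^ θ →
      0 < m ∧ m ∉ {m : ℕ | ∃ y : ℝ, (m : ℝ) ≤ y ∧ y < m + 1 ∧ y ^ ε < |Pool.Agent.H425R3.JL.Ec y|}) :
    BoundHolds φ ε θ C α := by
  obtain ⟨n₀, h0⟩ := h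
  obtain ⟨n₁, h1⟩ := ev_ge_one hf hτ hE hα
  refine ⟨max n₀ n₁, fun n hn y hy => ?_⟩
  have hφ1 := h1 n ((le_max_right _ _).trans hn)
  have hp1 : 1 ≤ (φ n α) ^ θ := Real.one_le_rpow hφ1 hθ0
  have hm : |((⌊y⌋₊ : ℕ) : ℝ) - φ n α| ≤ (C + 1) * (φ n α) ^ θ := by
    have h2 : |((⌊y⌋₊ : ℕ) : ℝ) - φ n α| ≤ |y - φ n α| + 1 := by
      rcases le_or_gt 0 y with hy0 | hy0
      · have h3 := Nat.floor_le hy0
        have h4 := Nat.lt_floor_add_one y
        have h5 : |((⌊y⌋₊ : ℕ) : ℝ) - y| ≤ 1 := by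
          rw [abs_le]
          constructor <;> linarith
        have h6 := abs_sub_le ((⌊y⌋₊ : ℕ) : ℝ) y (φ n α)
        linarith
      · rw [Nat.floor_of_nonpos hy0.le, Nat.cast_zero, zero_sub, abs_neg, abs_of_pos (by linarith),
          abs_of_neg (by linarith)]
        linarith
    calc |((⌊y⌋₊ : ℕ) : ℝ) - φ n α| ≤ C * (φ n α) ^ θ + 1 := by linarith
      _ ≤ (C + 1) * (φ n α) ^ θ := by linarith
  obtain ⟨h3, h4⟩ := h0 n ((le_max_left _ _).trans hn) _ hm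
  have hy1 : 1 ≤ y := (Nat.floor_pos).1 h3
  refine ⟨hy1, ?_⟩
  by_contra hcon
  push Not at hcon
  refine h4 ⟨y, Nat.floor_le (by linarith), Nat.lt_floor_add_one y, ?_⟩
  have hy0 : 0 < y := by linarith
  have hyp : 0 < y ^ (1 / 4 : ℝ) := Real.rpow_pos_of_pos hy0 _
  unfold Pool.Agent.H425R3.JL.Ec
  rw [abs_div, abs_of_pos hyp, lt_div_iff₀ hyp, ← Real.rpow_add hy0, add_comm ε]
  exact hcon

lemma small {ε : ℝ} (h0 : 0 < ε) (h1 : ε ≤ 1) : 0 ≤ ε * Real.log (1 / ε) ∧ ε * Real.log (1 / ε) ≤ 1 := by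
  have h2 : 0 < 1 / ε := by positivity
  constructor
  · refine mul_nonneg h0.le (Real.log_nonneg ?_)
    rw [le_div_iff₀ h0]
    linarith
  · have h3 := Real.log_le_sub_one_of_pos h2
    calc ε * Real.log (1 / ε) ≤ ε * (1 / ε - 1) := mul_le_mul_of_nonneg_left h3 h0.le
      _ = 1 - ε := by field_simp
      _ ≤ 1 := by linarith

lemma part1 : ∃ c : ℝ, 0 < c ∧ c ≤ 1 ∧
    ∀ ε : ℝ, 0 < ε → ε ≤ c → ∀ (a : ℝ) (φ : ℕ → ℝ → ℝ) (τ θ : ℝ), Starshaped a φ → 0 ≤ τ → ExpLe a φ τ →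
      0 ≤ θ → θ < 1 →
      ∃ E : Set ℝ, dimH E ≤ ENNReal.ofReal ((1 - c * (ε * Real.log (1 / ε)) + τ) / (1 - θ)) ∧
        ∀ α : ℝ, a < α → α ∉ E → ∀ C : ℝ, BoundHolds φ ε θ C α := by
  classical
  obtain ⟨c₀, hc₀, h⟩ := Pool.Agent.Y969.SW.exc_circle' 1 one_pos
  have hc : 0 < min c₀ 1 := lt_min hc₀ one_pos
  refine ⟨min c₀ 1, hc, min_le_right _ _, fun ε hε hεc a φ τ θ hf hτ hE hθ0 hθ1 => ?_⟩
  obtain ⟨C, hC, hcount⟩ := h ε hε (hεc.trans (min_le_left _ _))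
  obtain ⟨e0, e1⟩ := small hε (hεc.trans (min_le_right _ _))
  have hs : 0 ≤ 1 - min c₀ 1 * (ε * Real.log (1 / ε)) := by
    have := mul_le_mul (min_le_right c₀ 1) e1 e0 zero_le_one
    linarith
  obtain ⟨E, h1, h2⟩ := Pool.Agent.R482.ST.win_nat
    {m : ℕ | ∃ y : ℝ, (m : ℝ) ≤ y ∧ y < m + 1 ∧ y ^ ε < |Pool.Agent.H425R3.JL.Ec y|} hf hτ hE
    hs hθ1 (fun ε' hε' => by
      refine ⟨C, fun X hX => ?_⟩
      have hX1 : (1 : ℝ) ≤ X := by exact_mod_cast hX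
      have h3 := hcount 1 X le_rfl (by
        rw [Nat.cast_one, Real.one_rpow]
        exact hX1)
      have h4 : C * (X : ℝ) ^ (1 - c₀ * (ε * Real.log (1 / ε))) ≤
          C * (X : ℝ) ^ (1 - min c₀ 1 * (ε * Real.log (1 / ε)) + ε') := by
        apply mul_le_mul_of_nonneg_left _ hC.le
        apply Real.rpow_le_rpow_of_exponent_le hX1
        have := mul_le_mul_of_nonneg_right (min_le_left c₀ 1) e0
        linarith
      refine le_trans ?_ (h3.trans h4)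
      rw [Nat.cast_le]
      apply Finset.card_le_card
      intro m hm
      rw [Finset.mem_filter, Finset.mem_Ioc] at hm
      rw [Finset.mem_filter, Finset.mem_Ico]
      exact ⟨⟨hm.1.1, by omega⟩, hm.2⟩)
  exact ⟨E, h1, fun α hα hαE C' => real_of_nat hf hτ hE hθ0 hα (h2 α hα hαE (C' + 1))⟩

lemma hold_mono {φ : ℕ → ℝ → ℝ} {ε ε' θ C α : ℝ} (h : ε' ≤ ε) (hg : BoundHolds φ ε' θ C α) :
    BoundHolds φ ε θ C α := by
  obtain ⟨n₀, hn⟩ := hg
  refine ⟨n₀, fun n hn1 y hy => ?_⟩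
  obtain ⟨h1, h2⟩ := hn n hn1 y hy
  exact ⟨h1, h2.trans (Real.rpow_le_rpow_of_exponent_le h1 (by linarith))⟩

/-- **Theorem.** (1) There is an absolute `c ∈ (0, 1]` such that for all `0 < ε ≤ c`, all starshaped functions `φ` on
`(a, ∞)` of exponent of convergence at most `τ ≥ 0` and all `0 ≤ θ < 1` there is a set `E` of Hausdorff dimension at
most `(1 - c ε log (1/ε) + τ) / (1 - θ)` (less than one if `θ + τ < c ε log (1/ε)`) such that for all `α > a` outside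
`E`, all `C` and all but finitely many `n`, ALL real `y` with `|y - φ_n(α)| ≤ C φ_n(α) ^ θ` satisfy
`|#{p ∈ ℤ² : |p|² ≤ y} - πy| ≤ y ^ (1/4 + ε)`.
(2) For all starshaped functions `φ` on `(a, ∞)` of exponent of convergence `0` and almost every `α > a`: for every
`ε > 0` there is `θ > 0` such that for all but finitely many `n` all real `y` with `|y - φ_n(α)| ≤ φ_n(α) ^ θ` satisfy
`|#{p ∈ ℤ² : |p|² ≤ y} - πy| ≤ y ^ (1/4 + ε)`.
(3) Examples. The functions `v_n x`, `v_n > 0`, are starshaped on `(0, ∞)`, of exponent `τ` if `v` has exponent of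
convergence at most `τ`; the functions `x ^ (v_n)`, `v_n ≥ 1`, are starshaped on `(1, ∞)`, of exponent `0` if the
sums of `exp (-t v_n)` converge for `t > 0`; and the iterates of a map `g` with `g(x) > x` for `x > a` and `g(x) / x`
nondecreasing are starshaped on `(a, ∞)`, of exponent `0`. -/
theorem result :
    (∃ c : ℝ, 0 < c ∧ c ≤ 1 ∧
      ∀ ε : ℝ, 0 < ε → ε ≤ c → ∀ (a : ℝ) (φ : ℕ → ℝ → ℝ) (τ θ : ℝ), Starshaped a φ → 0 ≤ τ → ExpLe a φ τ →
        0 ≤ θ → θ < 1 →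
        ∃ E : Set ℝ, dimH E ≤ ENNReal.ofReal ((1 - c * (ε * Real.log (1 / ε)) + τ) / (1 - θ)) ∧
          (θ + τ < c * (ε * Real.log (1 / ε)) → dimH E < 1) ∧
          ∀ α : ℝ, a < α → α ∉ E → ∀ C : ℝ, BoundHolds φ ε θ C α) ∧
    (∀ (a : ℝ) (φ : ℕ → ℝ → ℝ), Starshaped a φ → ExpLe a φ 0 →
      ∀ᵐ α : ℝ, a < α → ∀ ε : ℝ, 0 < ε → ∃ θ : ℝ, 0 < θ ∧ BoundHolds φ ε θ 1 α) ∧
    (∀ (v : ℕ → ℝ) (τ : ℝ), (∀ n, 0 < v n) → (∀ t : ℝ, τ < t → Summable (fun n : ℕ => (v n) ^ (-t))) →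
      Starshaped 0 (fun n x => v n * x) ∧ ExpLe 0 (fun n x => v n * x) τ) ∧
    (∀ v : ℕ → ℝ, (∀ n, 1 ≤ v n) → (∀ t : ℝ, 0 < t → Summable fun n : ℕ => Real.exp (-(t * v n))) →
      Starshaped 1 (fun n x => x ^ (v n)) ∧ ExpLe 1 (fun n x => x ^ (v n)) 0) ∧
    (∀ (a : ℝ) (g : ℝ → ℝ), 0 ≤ a → (∀ x y : ℝ, a < x → x ≤ y → g x / x ≤ g y / y) → (∀ x : ℝ, a < x → x < g x) →
      Starshaped a (fun n x => g^[n] x) ∧ ExpLe a (fun n x => g^[n] x) 0) := by
  have hdim : ∀ {η τ θ : ℝ} {E : Set ℝ}, 0 ≤ τ → θ < 1 →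
      dimH E ≤ ENNReal.ofReal ((1 - η + τ) / (1 - θ)) → θ + τ < η → dimH E < 1 := by
    intro η τ θ E hτ hθ hE h
    refine lt_of_le_of_lt hE ?_
    have h1 : (1 : ENNReal) = ENNReal.ofReal 1 := by simp
    rw [h1]
    refine (ENNReal.ofReal_lt_ofReal_iff (by norm_num)).mpr ?_
    rw [div_lt_one (by linarith)]
    linarith
  obtain ⟨c, hc, hc1, h⟩ := part1
  refine ⟨⟨c, hc, hc1, fun ε hε hεc a φ τ θ hf hτ hE hθ0 hθ1 => ?_⟩,
    fun a φ hf hE => ?_, Pool.Agent.R482.ST.ex_mul, Pool.Agent.R482.ST.ex_pow,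
    Pool.Agent.R482.ST.ex_orbit⟩
  · obtain ⟨E, h1, h2⟩ := h ε hε hεc a φ τ θ hf hτ hE hθ0 hθ1
    exact ⟨E, h1, hdim hτ hθ1 h1, h2⟩
  · have hall : ∀ j : ℕ, ∃ (θ : ℝ) (E : Set ℝ), 0 < θ ∧ dimH E < 1 ∧
        ∀ α : ℝ, a < α → α ∉ E → BoundHolds φ (1 / ((j : ℝ) + 1)) θ 1 α := by
      intro j
      have hj0 : (0 : ℝ) ≤ j := Nat.cast_nonneg j
      set ε : ℝ := c / (j + 2) with hεdef
      have hε : 0 < ε := by positivity
      have hεc : ε ≤ c := by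
        rw [hεdef, div_le_iff₀ (by positivity)]
        nlinarith
      have hε1 : ε < 1 := by
        rw [hεdef, div_lt_one (by positivity)]
        linarith
      have hεj : ε ≤ 1 / ((j : ℝ) + 1) := by
        rw [hεdef, div_le_div_iff₀ (by positivity) (by positivity)]
        nlinarith
      have hη : 0 < c * (ε * Real.log (1 / ε)) := by
        refine mul_pos hc (mul_pos hε (Real.log_pos ?_))
        rw [lt_div_iff₀ hε]
        linarith
      have hη1 : c * (ε * Real.log (1 / ε)) ≤ 1 := by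
        obtain ⟨e0, e1⟩ := small hε hε1.le
        have := mul_le_mul hc1 e1 e0 zero_le_one
        linarith
      obtain ⟨E, h1, h2⟩ := h ε hε hεc a φ 0 (c * (ε * Real.log (1 / ε)) / 2) hf le_rfl hE
        (by linarith) (by linarith)
      exact ⟨_, E, by linarith, hdim le_rfl (by linarith) h1 (by linarith),
        fun α hα hαE => hold_mono hεj (h2 α hα hαE 1)⟩
    choose θ E hθ hE1 hE2 using hall
    have hnull : volume (⋃ j, E j) = 0 := by
      rw [measure_iUnion_null_iff]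
      intro j
      rw [← hausdorffMeasure_real]
      have h1 := hausdorffMeasure_of_dimH_lt (s := E j) (d := 1) (by simpa using hE1 j)
      simpa using h1
    rw [ae_iff]
    refine measure_mono_null (fun α hα => ?_) hnull
    rw [Set.mem_setOf_eq, Classical.not_imp] at hα
    by_contra hcon
    rw [Set.mem_iUnion] at hcon
    push Not at hcon
    refine hα.2 fun ε hε => ?_
    obtain ⟨j, hj⟩ := exists_nat_one_div_lt hε
    exact ⟨θ j, hθ j, hold_mono hj.le (hE2 j α hα.1 (hcon j))⟩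

end Pool.Agent.Results.MP_fb29e9_nt.StarshapedWindows
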